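import Pool.Agent.Helper42.PW.DENL

/-!
# Project LEO: complex conjugation and the characters of a totally real field
-/

set_option autoImplicit false

namespace Pool.Agent.Helper42.LEO

open NumberField Module
open Pool.Agent.Helper38.FD (Chr CutsOut)

/-- Complex conjugation of the algebraic closure of a totally real field: it inverts the roots of unity and is
trivial on the totally real extensions. -/
theorem exists_conj {K : Type} [Field K] [NumberField K] [IsTotallyReal K]
    (ιinf : AlgebraicClosure K →+* ℂ) (n : ℕ) (hn : n ≠ 0) :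
    ∃ g : AlgebraicClosure K ≃ₐ[K] AlgebraicClosure K,
      (∀ ξ : AlgebraicClosure K, ξ ^ n = 1 → g ξ = ξ ^ (n - 1)) ∧
      ∀ (M : IntermediateField K (AlgebraicClosure K)) [NumberField M] [IsTotallyReal M],
        ∀ x ∈ M, g x = x := by
  let A1 : Algebra (AlgebraicClosure K) ℂ := ιinf.toAlgebra
  let A2 : Algebra K ℂ := (ιinf.comp (algebraMap K (AlgebraicClosure K))).toAlgebra
  have hst : IsScalarTower K (AlgebraicClosure K) ℂ := IsScalarTower.of_algebraMap_eq fun x => rfl
  have hreal : ∀ (E : Type) [Field E] [NumberField E] [IsTotallyReal E] (φ : E →+* ℂ) (x : E),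
      (starRingEnd ℂ) (φ x) = φ x := by
    intro E _ _ _ φ x
    have h := IsTotallyReal.complexEmbedding_isReal φ
    exact RingHom.congr_fun h x
  let c : ℂ ≃ₐ[K] ℂ :=
    { (starRingAut : ℂ ≃+* ℂ) with
      commutes' := fun x => hreal K (ιinf.comp (algebraMap K (AlgebraicClosure K))) x }
  have hc : ∀ z : ℂ, c z = (starRingEnd ℂ) z := fun z => rfl
  let g : AlgebraicClosure K ≃ₐ[K] AlgebraicClosure K := c.restrictNormal (AlgebraicClosure K)
  have hg : ∀ x : AlgebraicClosure K, ιinf (g x) = (starRingEnd ℂ) (ιinf x) := fun x =>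
    AlgEquiv.restrictNormal_commutes c (AlgebraicClosure K) x
  refine ⟨g, ?_, ?_⟩
  · intro ξ hξ
    apply ιinf.injective
    have h1 : ‖ιinf ξ‖ = 1 := by
      have h2 : ‖ιinf ξ‖ ^ n = 1 := by rw [← norm_pow, ← map_pow, hξ, map_one, norm_one]
      exact (pow_eq_one_iff_of_nonneg (norm_nonneg _) hn).1 h2
    have h3 : ξ ≠ 0 := by
      rintro rfl
      rw [zero_pow hn] at hξ
      exact zero_ne_one hξ
    have h4 : ιinf ξ ≠ 0 := (map_ne_zero ιinf).2 h3
    rw [hg, map_pow]
    have h5 : ιinf ξ * ιinf ξ ^ (n - 1) = 1 := by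
      rw [← pow_succ', Nat.sub_add_cancel (Nat.one_le_iff_ne_zero.2 hn), ← map_pow, hξ, map_one]
    have h6 : ιinf ξ * (starRingEnd ℂ) (ιinf ξ) = 1 := by
      rw [Complex.mul_conj, Complex.normSq_eq_norm_sq, h1]
      norm_num
    exact mul_left_cancel₀ h4 (h6.trans h5.symm)
  · intro M _ _ x hx
    apply ιinf.injective
    rw [hg]
    exact hreal M (ιinf.comp (algebraMap M (AlgebraicClosure K))) ⟨x, hx⟩

section chr

variable {k G : Type} [Field k] [Group G] [Finite G]

/-- The order of a character is the order of its image. -/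
theorem orderOf_chr (ψ : G →* kˣ) : orderOf ψ = Nat.card ψ.range := by
  have hfin : Finite ψ.range := Finite.of_surjective ψ.rangeRestrict ψ.rangeRestrict_surjective
  have hcyc : IsCyclic ψ.range := by
    have hinj : Function.Injective ((Units.coeHom k).comp ψ.range.subtype) := by
      intro a b h
      apply Subtype.ext
      exact Units.ext h
    exact isCyclic_of_injective_ringHom _ hinj
  rw [← IsCyclic.exponent_eq_card]
  apply Nat.dvd_antisymm
  · apply orderOf_dvd_of_pow_eq_one
    ext g
    have h := Monoid.pow_exponent_eq_one (⟨ψ g, g, rfl⟩ : ψ.range)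
    have h2 := congrArg (fun z : ψ.range => ((z : kˣ) : k)) h
    exact h2
  · apply Monoid.exponent_dvd_of_forall_pow_eq_one
    rintro ⟨_, g, rfl⟩
    apply Subtype.ext
    have h := DFunLike.congr_fun (pow_orderOf_eq_one ψ) g
    exact h

end chr

section fld

variable {K : Type} [Field K] [NumberField K] {p : ℕ} [Fact p.Prime]

/-- The character of `Gal(Ω/K)` given by a character of `Gal(M/K)`. -/
noncomputable def chi (M : IntermediateField K (AlgebraicClosure K)) [IsGalois K M]
    (ψ : (M ≃ₐ[K] M) →* ℂ_[p]ˣ) : Chr K (AlgebraicClosure K) ℂ_[p] :=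
  ψ.comp (AlgEquiv.restrictNormalHom M)

/-- The field of a character of `Gal(M/K)`. -/
theorem exists_fld (M : IntermediateField K (AlgebraicClosure K)) [IsGalois K M]
    [FiniteDimensional K M] (ψ : (M ≃ₐ[K] M) →* ℂ_[p]ˣ) :
    ∃ H : IntermediateField K (AlgebraicClosure K), FiniteDimensional K H ∧ H ≤ M ∧
      CutsOut (chi M ψ) H ∧ finrank K H = orderOf ψ ∧ finrank K H ∣ finrank K M := by
  let E : IntermediateField K M := IntermediateField.fixedField ψ.ker
  have hE : finrank K E = orderOf ψ := by
    rw [orderOf_chr, ← Subgroup.index_ker]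
    have h1 : finrank E M = Nat.card ψ.ker := IntermediateField.finrank_fixedField_eq_card ψ.ker
    have h2 : finrank K E * finrank E M = finrank K M := finrank_mul_finrank K E M
    have h3 : Nat.card (M ≃ₐ[K] M) = finrank K M := IsGalois.card_aut_eq_finrank K M
    have h4 := ψ.ker.card_mul_index
    have h5 : 0 < Nat.card ψ.ker := Nat.card_pos
    rw [h1] at h2
    have h6 : Nat.card ψ.ker * finrank K E = Nat.card ψ.ker * ψ.ker.index := by
      rw [h4, h3, ← h2, mul_comm]
    exact Nat.eq_of_mul_eq_mul_left h5 h6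
  have hfr : finrank K (IntermediateField.lift E) = finrank K E :=
    (IntermediateField.liftAlgEquiv E).toLinearEquiv.finrank_eq.symm
  refine ⟨IntermediateField.lift E, ?_, IntermediateField.lift_le E, ?_, hfr.trans hE, ?_⟩
  · exact Module.Finite.equiv (IntermediateField.liftAlgEquiv E).toLinearEquiv
  · intro g
    have hmem : chi M ψ g = 1 ↔ AlgEquiv.restrictNormalHom M g ∈ ψ.ker := Iff.rfl
    rw [hmem, ← IntermediateField.fixingSubgroup_fixedField ψ.ker,
      IntermediateField.mem_fixingSubgroup_iff]
    have hcom : ∀ y : M, ((AlgEquiv.restrictNormalHom M g y : M) : AlgebraicClosure K) = g y :=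
      fun y => AlgEquiv.restrictNormal_commutes g M y
    constructor
    · intro h x hx
      have h1 := h ⟨x, IntermediateField.lift_le E hx⟩
        ((IntermediateField.mem_lift (⟨x, IntermediateField.lift_le E hx⟩ : M)).1 hx)
      exact (hcom ⟨x, IntermediateField.lift_le E hx⟩).symm.trans (congrArg Subtype.val h1)
    · intro h y hy
      apply Subtype.ext
      rw [hcom]
      exact h y ((IntermediateField.mem_lift y).2 hy)
  · rw [hfr]
    exact ⟨finrank E M, (finrank_mul_finrank K E M).symm⟩

end fld

end Pool.Agent.Helper42.LEO
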