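import Pool.Agent.Helper77.PPB.Core
import Pool.Agent.Helper38.FW.Norm

/-!
# Project LEO: the characters which cut out a cyclic extension of degree `p`
-/

set_option autoImplicit false
set_option linter.unusedSectionVars false

namespace Pool.Agent.Helper42.LEO

open NumberField Module
open Pool.Agent.Helper38.FD (Chr CutsOut Restricts exists_faithful exists_restricts exists_lift
  pow_card_desc)

variable {K : Type} [Field K] [NumberField K] {p : ℕ} [hpF : Fact p.Prime]

/-- There is a primitive `p`-th root of unity in `ℂ_p`. -/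
theorem exists_root_cp : ∃ ζ : ℂ_[p]ˣ, IsPrimitiveRoot ζ p := by
  have hne : NeZero ((p : ℕ) : ℂ_[p]) := ⟨Nat.cast_ne_zero.2 hpF.out.ne_zero⟩
  obtain ⟨ζ, hζ⟩ := HasEnoughRootsOfUnity.exists_primitiveRoot ℂ_[p] p
  have hu : IsUnit ζ := hζ.isUnit hpF.out.ne_zero
  obtain ⟨u, rfl⟩ := hu
  exact ⟨u, hζ.of_map_of_injective (f := Units.coeHom ℂ_[p]) Units.val_injective⟩

/-- A cyclic extension of degree `p` is cut out by a character. -/
theorem exists_cut (N : IntermediateField K (AlgebraicClosure K)) (hN : finrank K N = p)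
    (hG : IsGalois K N) : ∃ φ : Chr K (AlgebraicClosure K) ℂ_[p], CutsOut φ N := by
  have hp : p.Prime := hpF.out
  have hfd : FiniteDimensional K N := FiniteDimensional.of_finrank_pos (by rw [hN]; exact hp.pos)
  have hcard : Nat.card (N ≃ₐ[K] N) = p := by rw [IsGalois.card_aut_eq_finrank, hN]
  obtain ⟨ζ, hζ⟩ := exists_root_cp (p := p)
  have : Fact (Nat.card (N ≃ₐ[K] N)).Prime := ⟨by rw [hcard]; exact hp⟩
  have hcyc : IsCyclic (N ≃ₐ[K] N) := isCyclic_of_prime_card (p := p) hcard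
  have hcard2 : Nat.card (Subgroup.zpowers ζ) = p :=
    (Nat.card_zpowers ζ).trans hζ.eq_orderOf.symm
  have hcyc2 : IsCyclic (Subgroup.zpowers ζ) := inferInstance
  let E : (N ≃ₐ[K] N) ≃* Subgroup.zpowers ζ := mulEquivOfCyclicCardEq (hcard.trans hcard2.symm)
  let ψ : (N ≃ₐ[K] N) →* ℂ_[p]ˣ := (Subgroup.zpowers ζ).subtype.comp E.toMonoidHom
  have hψ : Function.Injective ψ := by
    intro a b h
    exact E.injective (Subtype.ext h)
  refine ⟨ψ.comp (AlgEquiv.restrictNormalHom N), fun g => ?_⟩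
  have hcom : ∀ y : N, ((AlgEquiv.restrictNormalHom N g y : N) : AlgebraicClosure K) = g y :=
    fun y => AlgEquiv.restrictNormal_commutes g N y
  have h1 : (ψ.comp (AlgEquiv.restrictNormalHom N)) g = 1 ↔ AlgEquiv.restrictNormalHom N g = 1 := by
    constructor
    · intro h
      exact hψ (by rw [map_one]; exact h)
    · intro h
      show ψ (AlgEquiv.restrictNormalHom N g) = 1
      rw [h, map_one]
  rw [h1]
  constructor
  · intro h x hx
    rw [← hcom ⟨x, hx⟩, h]
    rfl
  · intro h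
    ext y
    rw [hcom]
    exact h y y.2

/-- Two characters which cut out the same cyclic extension of degree `p` are powers of each other. -/
theorem cut_pow (N : IntermediateField K (AlgebraicClosure K)) (hN : finrank K N = p)
    {φ φ' : Chr K (AlgebraicClosure K) ℂ_[p]} (h : CutsOut φ N) (h' : CutsOut φ' N) :
    ∃ i : ℕ, i < p ∧ ¬ p ∣ i ∧ φ' = φ ^ i := by
  have hp : p.Prime := hpF.out
  have hfd : FiniteDimensional K N := FiniteDimensional.of_finrank_pos (by rw [hN]; exact hp.pos)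
  have hG : IsGalois K N := Pool.Agent.Helper38.FD.isGalois_of_cutsOut h
  have hcard : Nat.card (N ≃ₐ[K] N) = p := by rw [IsGalois.card_aut_eq_finrank, hN]
  obtain ⟨χ, hχi, hχ⟩ := exists_faithful h
  obtain ⟨χ', hχi', hχ'⟩ := exists_faithful h'
  have hcyc : IsCyclic (N ≃ₐ[K] N) := isCyclic_of_prime_card (p := p) hcard
  obtain ⟨a, ha⟩ := IsCyclic.exists_generator (α := N ≃ₐ[K] N)
  have hao : orderOf a = p := by rw [orderOf_eq_card_of_forall_mem_zpowers ha, hcard]
  have hζ : IsPrimitiveRoot (χ a) p := by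
    have h0 := IsPrimitiveRoot.orderOf (χ a)
    rw [orderOf_injective χ hχi a, hao] at h0
    exact h0
  have h1 : (χ' a) ^ p = 1 := by
    have h0 : a ^ p = 1 := by
      have := pow_orderOf_eq_one a
      rwa [hao] at this
    rw [← map_pow, h0, map_one]
  have : NeZero p := ⟨hp.ne_zero⟩
  have h1' : ((χ' a : ℂ_[p]ˣ) : ℂ_[p]) ^ p = 1 := by
    rw [← Units.val_pow_eq_pow_val, h1, Units.val_one]
  obtain ⟨i, hip, hi'⟩ := (IsPrimitiveRoot.coe_units_iff.2 hζ).eq_pow_of_pow_eq_one h1'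
  have hi : (χ a) ^ i = χ' a := by
    apply Units.ext
    rw [Units.val_pow_eq_pow_val, hi']
  refine ⟨i, hip, ?_, ?_⟩
  · rintro ⟨m, rfl⟩
    rw [pow_mul, hζ.pow_eq_one, one_pow] at hi
    have h2 : a = 1 := hχi' (by rw [← hi, map_one])
    rw [h2, orderOf_one] at hao
    exact hp.one_lt.ne hao
  · apply MonoidHom.ext
    intro g
    rw [MonoidHom.pow_apply]
    obtain ⟨b, hb⟩ := exists_restricts (H := N) g
    rw [hχ g b hb, hχ' g b hb]
    obtain ⟨n, rfl⟩ := Subgroup.mem_zpowers_iff.1 (ha b)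
    rw [map_zpow, map_zpow, ← hi, ← zpow_natCast, ← zpow_natCast, ← zpow_mul, ← zpow_mul, mul_comm]

theorem cut_pow_inj (N : IntermediateField K (AlgebraicClosure K)) (hN : finrank K N = p)
    {φ : Chr K (AlgebraicClosure K) ℂ_[p]} (h : CutsOut φ N) {i j : ℕ} (hi : i < p) (hj : j < p)
    (hij : φ ^ i = φ ^ j) : i = j := by
  have hp : p.Prime := hpF.out
  have hfd : FiniteDimensional K N := FiniteDimensional.of_finrank_pos (by rw [hN]; exact hp.pos)
  have h1 : ∃ g, φ g ≠ 1 := by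
    by_contra hcon
    push Not at hcon
    have h2 : N = ⊥ := by
      apply Pool.Agent.Helper77.PPB.cutsOut_unique h
      intro g
      constructor
      · intro _ x hx
        obtain ⟨y, rfl⟩ := IntermediateField.mem_bot.1 hx
        exact g.commutes y
      · intro _
        exact hcon g
    rw [h2, IntermediateField.finrank_bot] at hN
    exact hp.one_lt.ne hN
  obtain ⟨g, hg⟩ := h1
  have h2 : (φ g) ^ p = 1 := by
    have h0 := pow_card_desc h g
    rwa [hN] at h0
  have h3 : orderOf (φ g) = p := orderOf_eq_prime h2 hg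
  have h4 : (φ g) ^ i = (φ g) ^ j := by
    rw [← MonoidHom.pow_apply, ← MonoidHom.pow_apply, hij]
  rw [pow_eq_pow_iff_modEq, h3] at h4
  exact Nat.ModEq.eq_of_lt_of_lt h4 hi hj

/-- The pairs `(N, φ)` for `N` in a set of fields. -/
theorem ncard_pairs (A : Set (IntermediateField K (AlgebraicClosure K)))
    (hA : ∀ N ∈ A, finrank K N = p ∧ IsGalois K N) :
    {x : IntermediateField K (AlgebraicClosure K) × Chr K (AlgebraicClosure K) ℂ_[p] |
      x.1 ∈ A ∧ CutsOut x.2 x.1}.ncard = A.ncard * (p - 1) := by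
  classical
  have hp : p.Prime := hpF.out
  have hex : ∀ N : IntermediateField K (AlgebraicClosure K), ∃ φ : Chr K (AlgebraicClosure K) ℂ_[p],
      N ∈ A → CutsOut φ N := by
    intro N
    by_cases hN : N ∈ A
    · obtain ⟨φ, hφ⟩ := exists_cut N (hA N hN).1 (hA N hN).2
      exact ⟨φ, fun _ => hφ⟩
    · exact ⟨1, fun h => absurd h hN⟩
  choose c hc using hex
  have h1 : {x : IntermediateField K (AlgebraicClosure K) × Chr K (AlgebraicClosure K) ℂ_[p] |
      x.1 ∈ A ∧ CutsOut x.2 x.1} =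
      (fun y : IntermediateField K (AlgebraicClosure K) × ℕ => (y.1, c y.1 ^ y.2)) ''
        (A ×ˢ ((Finset.Ico 1 p : Finset ℕ) : Set ℕ)) := by
    ext x
    constructor
    · rintro ⟨hx1, hx2⟩
      obtain ⟨i, hip, hi, hix⟩ := cut_pow x.1 (hA _ hx1).1 (hc _ hx1) hx2
      refine ⟨(x.1, i), ⟨hx1, ?_⟩, ?_⟩
      · rw [Finset.mem_coe, Finset.mem_Ico]
        refine ⟨?_, hip⟩
        rcases Nat.eq_zero_or_pos i with h0 | h0
        · exact absurd (h0 ▸ dvd_zero p) hi
        · exact h0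
      · exact Prod.ext rfl hix.symm
    · rintro ⟨⟨N, i⟩, ⟨hN, hi⟩, rfl⟩
      rw [Finset.mem_coe, Finset.mem_Ico] at hi
      have hfd : FiniteDimensional K N := FiniteDimensional.of_finrank_pos (by
        rw [(hA N hN).1]; exact hp.pos)
      refine ⟨hN, Pool.Agent.Helper77.PPB.cutsOut_pow (hc N hN) ?_⟩
      rw [(hA N hN).1]
      exact (hp.coprime_iff_not_dvd).2 fun h => absurd (Nat.le_of_dvd hi.1 h) (not_le.2 hi.2)
  rw [h1, Set.InjOn.ncard_image, Set.ncard_prod, Set.ncard_coe_finset, Nat.card_Ico]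
  rintro ⟨N, i⟩ ⟨hN, hi⟩ ⟨N', j⟩ ⟨hN', hj⟩ h
  rw [Finset.mem_coe, Finset.mem_Ico] at hi hj
  have e1 : N = N' := (Prod.ext_iff.1 h).1
  subst e1
  have e2 : c N ^ i = c N ^ j := (Prod.ext_iff.1 h).2
  exact Prod.ext rfl (cut_pow_inj N (hA N hN).1 (hc N hN) hi.2 hj.2 e2)

end Pool.Agent.Helper42.LEO
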