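import Pool.Agent.Helper42.LEO.Conj
import Pool.Agent.Helper38.FW.Main

/-!
# Project LEO: the density theorem for totally real fields

`K` is totally real, `M/K` is a finite Galois extension, `M` totally real, of degree prime to the odd prime `p`.
The constant is the sum of `1/(f(p^f - 1))` over the characters `ψ` of `Gal(M/K)`, `f` the order of `p` modulo the
order of `ψ`.
-/

set_option autoImplicit false
set_option linter.unusedSectionVars false

namespace Pool.Agent.Helper42.LEO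

open NumberField Module Pool.Agent.Helper51.SigLeo
open Pool.Agent.Helper51.RP Pool.Agent.Helper42.RD Pool.Agent.Helper42.PW
open Pool.Agent.Helper38.FD (Chr CutsOut LeopoldtFor Restricts exists_desc)
open Pool.Agent.Helper77.PPB (ChN CompB)
open Pool.Agent.Helper38.FW (GoodV cntE LocE condP comp_bot cutsOut_one norm_p_lt)

section orb

variable {A : Type} [CommGroup A]

/-- The order of `p` modulo the order of `a`. -/
noncomputable def fdeg (p : ℕ) (a : A) : ℕ := orderOf (p : ZMod (orderOf a))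

theorem frob_inj {p : ℕ} {a : A} (h : (orderOf a).Coprime p) {r s : ℕ} (hr : r < fdeg p a)
    (hs : s < fdeg p a) (he : a ^ p ^ r = a ^ p ^ s) : r = s := by
  rw [pow_eq_pow_iff_modEq, ← ZMod.natCast_eq_natCast_iff, Nat.cast_pow, Nat.cast_pow] at he
  have hu : ((ZMod.unitOfCoprime p h.symm : (ZMod (orderOf a))ˣ) : ZMod (orderOf a)) = p :=
    ZMod.coe_unitOfCoprime p h.symm
  have ho : orderOf (ZMod.unitOfCoprime p h.symm) = fdeg p a := by
    rw [← orderOf_units, hu]; rfl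
  apply pow_injOn_Iio_orderOf (x := ZMod.unitOfCoprime p h.symm)
  · rw [ho]; exact hr
  · rw [ho]; exact hs
  · apply Units.ext
    rw [Units.val_pow_eq_pow_val, Units.val_pow_eq_pow_val, hu]
    exact he

variable [Finite A]

theorem fdeg_pos {p : ℕ} {a : A} (h : (orderOf a).Coprime p) : 0 < fdeg p a := by
  have : NeZero (orderOf a) := ⟨(orderOf_pos a).ne'⟩
  have hu : ((ZMod.unitOfCoprime p h.symm : (ZMod (orderOf a))ˣ) : ZMod (orderOf a)) = p :=
    ZMod.coe_unitOfCoprime p h.symm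
  have ho : orderOf (ZMod.unitOfCoprime p h.symm) = fdeg p a := by
    rw [← orderOf_units, hu]; rfl
  rw [← ho]
  exact orderOf_pos _

theorem frob_fdeg {p : ℕ} {a : A} (m : ℕ) : a ^ p ^ (fdeg p a * m) = a := by
  conv_rhs => rw [← pow_one a]
  rw [pow_eq_pow_iff_modEq, ← ZMod.natCast_eq_natCast_iff, Nat.cast_pow, Nat.cast_one, pow_mul]
  rw [show (p : ZMod (orderOf a)) ^ fdeg p a = 1 from pow_orderOf_eq_one _, one_pow]

theorem fdeg_frob {p : ℕ} {a : A} (h : (orderOf a).Coprime p) (r : ℕ) :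
    fdeg p (a ^ p ^ r) = fdeg p a := by
  unfold fdeg
  rw [Nat.Coprime.orderOf_pow (h.pow_right r)]

/-- The classes of characters. -/
theorem exists_cls (p : ℕ) (hA : ∀ a : A, (orderOf a).Coprime p) (w : ℕ → ℝ)
    (hw : ∀ f, 0 ≤ w f) :
    ∃ (n : ℕ) (c : A → Fin n) (rep : Fin n → A), (∀ a b, c a = c b → ∃ r : ℕ, a = b ^ p ^ r) ∧
      (∀ a, fdeg p (rep (c a)) = fdeg p a) ∧
      ∑ t, w (fdeg p (rep t)) ≤ ∑ᶠ a : A, w (fdeg p a) / fdeg p a := by
  classical
  let s : Setoid A :=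
    { r := fun a b => ∃ r : ℕ, a = b ^ p ^ r
      iseqv := by
        refine ⟨fun a => ⟨0, by rw [pow_zero, pow_one]⟩, ?_, ?_⟩
        · rintro a b ⟨r, rfl⟩
          refine ⟨(fdeg p b - 1) * r, ?_⟩
          rw [← pow_mul, ← pow_add]
          have h1 : r + (fdeg p b - 1) * r = fdeg p b * r := by
            have h2 := fdeg_pos (hA b)
            obtain ⟨f, hf⟩ : ∃ f, fdeg p b = f + 1 := ⟨fdeg p b - 1, by omega⟩
            rw [hf, Nat.add_sub_cancel]
            ring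
          rw [h1, frob_fdeg]
        · rintro a b d ⟨r, rfl⟩ ⟨q, rfl⟩
          exact ⟨q + r, by rw [← pow_mul, ← pow_add]⟩ }
  have hfA : Fintype A := Fintype.ofFinite A
  have hfQ : Fintype (Quotient s) := Fintype.ofFinite _
  let E := Fintype.equivFin (Quotient s)
  let c : A → Fin (Fintype.card (Quotient s)) := fun a => E ⟦a⟧
  let rep : Fin (Fintype.card (Quotient s)) → A := fun t => (E.symm t).out
  have hcr : ∀ t, c (rep t) = t := by
    intro t
    show E ⟦(E.symm t).out⟧ = t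
    rw [Quotient.out_eq, Equiv.apply_symm_apply]
  have hc : ∀ a b, c a = c b → ∃ r : ℕ, a = b ^ p ^ r := by
    intro a b h
    exact Quotient.exact (E.injective h)
  have hc2 : ∀ (a : A) (r : ℕ), c (a ^ p ^ r) = c a := by
    intro a r
    exact congrArg E (Quotient.sound ⟨r, rfl⟩)
  refine ⟨_, c, rep, hc, ?_, ?_⟩
  · intro a
    obtain ⟨r, hr⟩ := hc _ _ (hcr (c a))
    rw [hr, fdeg_frob (hA a)]
  · rw [finsum_eq_sum_of_fintype, ← Finset.sum_fiberwise Finset.univ c]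
    refine Finset.sum_le_sum fun t _ => ?_
    have hf := fdeg_pos (hA (rep t))
    have h1 : ∑ a ∈ (Finset.range (fdeg p (rep t))).image (fun r => rep t ^ p ^ r),
        w (fdeg p a) / fdeg p a = w (fdeg p (rep t)) := by
      rw [Finset.sum_image]
      · have h2 : ∀ r ∈ Finset.range (fdeg p (rep t)),
            w (fdeg p (rep t ^ p ^ r)) / fdeg p (rep t ^ p ^ r) =
              w (fdeg p (rep t)) / fdeg p (rep t) := by
          intro r _
          rw [fdeg_frob (hA (rep t))]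
        rw [Finset.sum_congr rfl h2, Finset.sum_const, Finset.card_range, nsmul_eq_mul]
        have h3 : ((fdeg p (rep t) : ℕ) : ℝ) ≠ 0 := Nat.cast_ne_zero.2 hf.ne'
        field_simp
      · intro r hr q hq h
        exact frob_inj (hA (rep t)) (Finset.mem_range.1 hr) (Finset.mem_range.1 hq) h
    rw [← h1]
    refine Finset.sum_le_sum_of_subset_of_nonneg ?_ ?_
    · intro a ha
      obtain ⟨r, _, rfl⟩ := Finset.mem_image.1 ha
      rw [Finset.mem_filter]
      exact ⟨Finset.mem_univ _, by rw [hc2, hcr]⟩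
    · intro a _ _
      exact div_nonneg (hw _) (Nat.cast_nonneg _)

end orb

/-- The characters of a finite group form a finite group. -/
theorem finite_chr (G k : Type) [Group G] [Finite G] [Field k] : Finite (G →* kˣ) := by
  classical
  have : NeZero (Nat.card G) := ⟨Nat.card_pos.ne'⟩
  let S := rootsOfUnity (Nat.card G) k
  have hS : Finite S := inferInstanceAs (Finite (rootsOfUnity (Nat.card G) k))
  have : Finite (G →* S) := .of_injective _ DFunLike.coe_injective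
  refine .of_surjective (fun f : G →* S => S.subtype.comp f) fun f ↦ ?_
  have H a : f a ∈ S := by
    rw [mem_rootsOfUnity, ← map_pow, pow_card_eq_one', map_one]
  exact ⟨MonoidHom.codRestrict f S H, MonoidHom.ext fun _ ↦ rfl⟩

section main

variable {K : Type} [Field K] [NumberField K]

/-- The sum of `1/(f(p^f - 1))` over the characters `ψ` of `Gal(M/K)`, `f` the order of `p` modulo the order of
`ψ`. -/
noncomputable def Theta (p : ℕ) [Fact p.Prime] (M : IntermediateField K (AlgebraicClosure K)) :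
    ℝ :=
  ∑ᶠ ψ : (M ≃ₐ[K] M) →* ℂ_[p]ˣ, 1 / ((fdeg p ψ : ℝ) * ((p : ℝ) ^ fdeg p ψ - 1))

/-- The conjecture of Leopoldt for the characters of `Gal(M N/K)` which are not trivial on `Gal(M N/M)`,
`x = (N, φ)`. -/
def GoodL {p : ℕ} [Fact p.Prime] (ιinf : AlgebraicClosure K →+* ℂ)
    (ιp : AlgebraicClosure K →+* ℂ_[p]) (Lg : IwasawaLog p ℂ_[p])
    (M : IntermediateField K (AlgebraicClosure K))
    (x : IntermediateField K (AlgebraicClosure K) × Chr K (AlgebraicClosure K) ℂ_[p]) : Prop :=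
  ∀ χ₀ : Chr K (AlgebraicClosure K) ℂ_[p], (∀ g, (∀ y ∈ M, g y = y) → χ₀ g = 1) →
    ∀ s : ℕ, ¬ p ∣ s → LeopoldtFor ιinf ιp Lg Set.univ (χ₀ * x.2 ^ s)

theorem chi_eq_one {p : ℕ} [Fact p.Prime] (M : IntermediateField K (AlgebraicClosure K))
    [IsGalois K M] (ψ : (M ≃ₐ[K] M) →* ℂ_[p]ˣ)
    (g : AlgebraicClosure K ≃ₐ[K] AlgebraicClosure K) (hg : ∀ y ∈ M, g y = y) :
    chi M ψ g = 1 := by
  have h1 : AlgEquiv.restrictNormalHom M g = 1 := by
    ext y
    exact (AlgEquiv.restrictNormal_commutes g M y).trans (hg y y.2)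
  show ψ (AlgEquiv.restrictNormalHom M g) = 1
  rw [h1, map_one]

theorem exists_chi {p : ℕ} [Fact p.Prime] (M : IntermediateField K (AlgebraicClosure K))
    [IsGalois K M] (χ₀ : Chr K (AlgebraicClosure K) ℂ_[p])
    (h : ∀ g, (∀ y ∈ M, g y = y) → χ₀ g = 1) : ∃ ψ : (M ≃ₐ[K] M) →* ℂ_[p]ˣ, chi M ψ = χ₀ := by
  obtain ⟨ψ, hψ⟩ := exists_desc (Ω := AlgebraicClosure K) (χ := χ₀) (H := M) h
  refine ⟨ψ, ?_⟩
  ext g
  congr 1
  exact (hψ g (AlgEquiv.restrictNormalHom M g) fun y =>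
    (AlgEquiv.restrictNormal_commutes g M y).symm).symm

theorem chr_one_mul {p : ℕ} [Fact p.Prime] (χ : Chr K (AlgebraicClosure K) ℂ_[p]) :
    1 * χ = χ := MonoidHom.ext fun _ => one_mul _

theorem chr_mul_one {p : ℕ} [Fact p.Prime] (χ : Chr K (AlgebraicClosure K) ℂ_[p]) :
    χ * 1 = χ := MonoidHom.ext fun _ => mul_one _

theorem norm_two_sub {p : ℕ} [hpF : Fact p.Prime] (hp2 : p ≠ 2) :
    ‖(1 : ℂ_[p]) - ((p - 1 : ℕ) : ℂ_[p])‖ = 1 := by
  have hp : p.Prime := hpF.out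
  have h1 : (1 : ℂ_[p]) - ((p - 1 : ℕ) : ℂ_[p]) = 2 - (p : ℂ_[p]) := by
    rw [Nat.cast_sub hp.one_lt.le]
    push_cast
    ring
  have h2 : ‖(2 : ℂ_[p])‖ = 1 := by
    have h3 : ‖(algebraMap ℚ_[p] ℂ_[p] ((2 : ℕ) : ℚ_[p]))‖ = ‖((2 : ℕ) : ℚ_[p])‖ :=
      norm_algebraMap' _ _
    rw [map_natCast, Nat.cast_ofNat] at h3
    rw [h3]
    have h4 : ‖((2 : ℕ) : ℚ_[p])‖ = 1 := by
      rw [Padic.norm_natCast_eq_one_iff]
      exact (Nat.coprime_primes hp Nat.prime_two).2 hp2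
    exact_mod_cast h4
  rw [h1]
  have h5 : ‖-(p : ℂ_[p])‖ < ‖(2 : ℂ_[p])‖ := by
    rw [norm_neg, h2]
    exact norm_p_lt
  rw [sub_eq_add_neg, IsUltrametricDist.norm_add_eq_max_of_norm_ne_norm h5.ne', max_eq_left h5.le, h2]

/-- **The density theorem for totally real fields.** -/
theorem leo_den (p : ℕ) [hpF : Fact p.Prime] (hp2 : p ≠ 2) [IsTotallyReal K]
    (ιinf : AlgebraicClosure K →+* ℂ) (ιp : AlgebraicClosure K →+* ℂ_[p])
    (Lg : IwasawaLog p ℂ_[p]) (M : IntermediateField K (AlgebraicClosure K)) [NumberField M]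
    [IsTotallyReal M] [IsGalois K M] (hcop : (finrank K M).Coprime p)
    (A : Set (IntermediateField K (AlgebraicClosure K) × Chr K (AlgebraicClosure K) ℂ_[p]))
    (hA : LocC p K A)
    (hT : ∀ x ∈ A, ∀ (ψ : (M ≃ₐ[K] M) →* ℂ_[p]ˣ) (σ : K →+* ℂ_[p]),
      DecT x.2 σ ∨ NonOm (chi M ψ) σ)
    (e : IntermediateField K (AlgebraicClosure K) × Chr K (AlgebraicClosure K) ℂ_[p] → ℕ)
    (he : LocE p K e) :
  (∀ X : ℕ, {x | x ∈ ChN p K ∧ condP p K x.1 * e x ≤ X}.Finite) ∧
  (∀ η : ℝ, 0 < η → ∀ᶠ X : ℕ in Filter.atTop,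
    cntE e {x | x ∈ A ∧ ¬ GoodL ιinf ιp Lg M x} X ≤ (Theta p M + η) * cntE e A X) ∧
  (∃ δ : ℝ, 0 < δ ∧ ∀ᶠ X : ℕ in Filter.atTop,
    0 < cntE e (ChN p K) X ∧ δ * cntE e (ChN p K) X ≤ cntE e A X) := by
  classical
  have hp : p.Prime := hpF.out
  have hfd : FiniteDimensional K M := Module.Finite.of_restrictScalars_finite ℚ K M
  have hfin : Finite ((M ≃ₐ[K] M) →* ℂ_[p]ˣ) := finite_chr _ _
  choose H hH1 hH2 hH3 hH4 hH5 using fun ψ : (M ≃ₐ[K] M) →* ℂ_[p]ˣ => exists_fld M ψ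
  have hco : ∀ ψ : (M ≃ₐ[K] M) →* ℂ_[p]ˣ, (orderOf ψ).Coprime p := fun ψ => by
    rw [← hH4 ψ]
    exact hcop.coprime_dvd_left (hH5 ψ)
  have hp1 : ∀ f : ℕ, 0 ≤ 1 / ((p : ℝ) ^ f - 1) := by
    intro f
    have h1 : (1 : ℝ) ≤ (p : ℝ) ^ f := one_le_pow₀ (by exact_mod_cast hp.one_lt.le)
    exact div_nonneg zero_le_one (by linarith)
  obtain ⟨n, c, rep, hc, hfr, hsum⟩ := exists_cls p hco (fun f => 1 / ((p : ℝ) ^ f - 1)) hp1
  obtain ⟨g, hg1, hg2⟩ := exists_conj ιinf p hp.ne_zero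
  have hgM : ∀ ψ : (M ≃ₐ[K] M) →* ℂ_[p]ˣ, chi M ψ g = 1 := fun ψ => chi_eq_one M ψ g (hg2 M)
  have hcl : PlaceClosed (TSet ιinf ιp (Set.univ : Set (K →+* ℂ))) :=
    Pool.Agent.Helper35.RD.tset_closed ιinf ιp _ fun _ _ _ => Iff.rfl
  have hTc : (TSet ιinf ιp (Set.univ : Set (K →+* ℂ))).ncard = finrank ℚ K := by
    rw [Pool.Agent.Helper35.RD.tset_ncard, Set.ncard_univ, Nat.card_eq_fintype_card,
      NumberField.Embeddings.card]
  have hcard : finrank ℚ K = Fintype.card (InfinitePlace K) := by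
    rw [InfinitePlace.card_eq_nrRealPlaces_add_nrComplexPlaces,
      IsTotallyReal.nrComplexPlaces_eq_zero K, add_zero]
    exact IsTotallyReal.finrank K
  have hrk : Units.rank K + 1 = finrank ℚ K := by
    have h1 : 0 < finrank ℚ K := finrank_pos
    rw [Units.rank]
    omega
  have hrk' : ∀ f : ℕ, ((p : ℝ) ^ f) ≠ 0 := fun f => pow_ne_zero _ (Nat.cast_ne_zero.2 hp.ne_zero)
  have key := w_denl p K (Or.inl hp2) ιinf ιp Lg ((M ≃ₐ[K] M) →* ℂ_[p]ˣ) n c (fun _ => Set.univ)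
    H (fun _ => ⊥) (fun ψ => chi M ψ) (fun _ => 1) (fun _ => hcl) hH1 hH3
    (fun ψ => by rw [hH4 ψ]; exact hco ψ)
    (fun ψ => ⟨g, p - 1, hg1, by rw [hgM ψ, Units.val_one]; exact norm_two_sub hp2⟩)
    (fun _ => cutsOut_one) (fun _ => ⟨0, by rw [IntermediateField.finrank_bot, pow_zero]⟩)
    (fun _ σ τ _ g' _ => by rw [MonoidHom.pow_apply, MonoidHom.one_apply, one_pow])
    (fun i j hij => ⟨rfl, (hc i j hij).imp fun r hr => by
      apply MonoidHom.ext
      intro g'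
      rw [MonoidHom.pow_apply]
      show i _ = j _ ^ p ^ r
      conv_lhs => rw [hr]
      rw [MonoidHom.pow_apply], rfl⟩)
    (fun t => 1 / ((p : ℝ) ^ fdeg p (rep t) - 1)) (fun t => hp1 _) (fun _ => finrank ℚ K)
    (fun ψ => (nUr_le K (H ψ)).trans hcard.symm.le)
    (fun ψ => by
      rw [hTc, hfr ψ]
      by_cases hψ : H ψ = ⊥
      · left
        refine ⟨hψ, hrk.le, ?_⟩
        have h1 : fdeg p ψ = 1 := by
          unfold fdeg
          have h2 : orderOf ψ = 1 := by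
            rw [← hH4 ψ, hψ, IntermediateField.finrank_bot]
          rw [h2]
          exact orderOf_eq_one_iff.2 (Subsingleton.elim _ _)
        rw [h1, hrk, pow_one]
        apply le_of_eq
        have h3 : (p : ℝ) - 1 ≠ 0 := by
          have : (1 : ℝ) < p := by exact_mod_cast hp.one_lt
          linarith
        have h4 := hrk' (finrank ℚ K)
        field_simp
      · right; right
        refine ⟨hψ, fun j => ⟨g, p - 1, hg1, by
          rw [hgM ψ, Units.val_one, one_pow]; exact norm_two_sub hp2⟩, ?_⟩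
        have h1 : orderOf (p : ZMod (finrank K (H ψ))) = fdeg p ψ := by
          unfold fdeg
          rw [hH4 ψ]
        rw [h1, div_self (pow_ne_zero _ (hrk' _)), one_mul])
    A hA (fun x hx ψ σ _ => by rw [chr_one_mul]; exact hT x hx ψ σ) e he
  obtain ⟨k1, k2, k3⟩ := key
  refine ⟨k1, fun η hη => ?_, k3⟩
  filter_upwards [k2 η hη] with X hX
  have hsub : cntE e {x | x ∈ A ∧ ¬ GoodL ιinf ιp Lg M x} X ≤
      cntE e {x | x ∈ A ∧ ∃ i, ¬ GoodV ιinf ιp Lg Set.univ (H i) (⊥ :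
        IntermediateField K (AlgebraicClosure K)) (chi M i) 1 x} X := by
    unfold cntE
    refine Nat.cast_le.2 (Set.ncard_le_ncard ?_ ?_)
    · rintro x ⟨⟨hx1, hx2⟩, hx3⟩
      refine ⟨⟨hx1, ?_⟩, hx3⟩
      by_contra hcon
      push Not at hcon
      apply hx2
      intro χ₀ hχ₀ s hs
      obtain ⟨ψ, rfl⟩ := exists_chi M χ₀ hχ₀
      have h1 := hcon ψ s ⊥ 1 hs (comp_bot _ _ _) cutsOut_one
      rw [chr_one_mul, chr_mul_one] at h1
      exact h1
    · exact (k1 X).subset fun x hx => ⟨hA.sub hx.1.1, hx.2⟩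
  refine hsub.trans (hX.trans ?_)
  refine mul_le_mul_of_nonneg_right ?_ (Nat.cast_nonneg _)
  have h5 : ∑ t, 1 / ((p : ℝ) ^ fdeg p (rep t) - 1) ≤ Theta p M := by
    refine hsum.trans (le_of_eq ?_)
    unfold Theta
    refine finsum_congr fun ψ => ?_
    rw [div_div, mul_comm]
  linarith

end main

end Pool.Agent.Helper42.LEO
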