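import Pool.Agent.Helper42.LEO.Den
import Pool.Agent.Helper42.LEO.Cut
import Pool.Agent.Helper76.LEO.Goals
import Pool.Agent.Helper59.SL.Defs

/-!
# Project LEO: the density theorem for fields
-/

set_option autoImplicit false
set_option linter.unusedSectionVars false

namespace Pool.Agent.Helper42.LEO

open NumberField Module Pool.Agent.Helper51.SigLeo
open Pool.Agent.Helper51.RP Pool.Agent.Helper42.RD Pool.Agent.Helper42.PW
open Pool.Agent.Helper38.FD (Chr CutsOut LeopoldtFor Restricts exists_desc)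
open Pool.Agent.Helper77.PPB (ChN CompB)
open Pool.Agent.Helper38.FW (GoodV cntE LocE condP comp_bot cutsOut_one norm_p_lt)
open Pool.Agent.Helper76.LEO (IsFamily IsFactor CycExt SameP GoodC theta count)

section act

variable {F : Type} [Field F] [NumberField F] {p : ℕ} [hpF : Fact p.Prime]

/-- The action on the `p`-th roots of unity. -/
theorem exists_act (g : AlgebraicClosure F ≃ₐ[F] AlgebraicClosure F) :
    ∃ r : ℕ, ∀ ξ : AlgebraicClosure F, ξ ^ p = 1 → g ξ = ξ ^ r := by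
  have hne : NeZero ((p : ℕ) : AlgebraicClosure F) := ⟨Nat.cast_ne_zero.2 hpF.out.ne_zero⟩
  have : NeZero p := ⟨hpF.out.ne_zero⟩
  obtain ⟨ζ, hζ⟩ := HasEnoughRootsOfUnity.exists_primitiveRoot (AlgebraicClosure F) p
  have h1 : (g ζ) ^ p = 1 := by rw [← map_pow, hζ.pow_eq_one, map_one]
  obtain ⟨r, -, hr⟩ := hζ.eq_pow_of_pow_eq_one h1
  refine ⟨r, fun ξ hξ => ?_⟩
  obtain ⟨i, -, rfl⟩ := hζ.eq_pow_of_pow_eq_one hξ
  rw [map_pow, ← hr, ← pow_mul, ← pow_mul, mul_comm]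

theorem norm_one_sub_nat (F : Type) [Field F] (r : ℕ) :
    ‖(1 : ℂ_[p]) - (r : ℂ_[p])‖ = 1 ∨ ∀ ξ : AlgebraicClosure F, ξ ^ p = 1 → ξ ^ r = ξ := by
  by_cases h : (p : ℤ) ∣ 1 - (r : ℤ)
  · right
    intro ξ hξ
    have h1 : r ≡ 1 [MOD p] := by
      rw [← Int.natCast_modEq_iff]
      exact (Int.modEq_iff_dvd).2 (by exact_mod_cast h)
    calc ξ ^ r = ξ ^ 1 := pow_eq_pow_of_modEq h1 hξ
      _ = ξ := pow_one ξ
  · left
    have h1 : ‖(((1 - (r : ℤ) : ℤ)) : ℚ_[p])‖ = 1 := by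
      refine le_antisymm (Padic.norm_int_le_one _) (not_lt.1 fun hlt => h ?_)
      exact (Padic.norm_intCast_lt_one_iff).1 hlt
    have h2 : (1 : ℂ_[p]) - (r : ℂ_[p]) = algebraMap ℚ_[p] ℂ_[p] (((1 - (r : ℤ) : ℤ)) : ℚ_[p]) := by
      rw [map_intCast]
      push_cast
      rfl
    rw [h2, norm_algebraMap', h1]

end act

/-- **The density theorem for fields.** -/
theorem l_den : Pool.Agent.Helper76.LEO.L_DEN := by
  intro p hpF F _ _ M hfd hGal hab hcop hμ L A hA e he ιinf ιp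
  classical
  have hp : p.Prime := hpF.out
  have hp2 : p ≠ 2 := by
    rintro rfl
    apply hμ
    exact ⟨-1, IsPrimitiveRoot.neg_one 0 (by norm_num)⟩
  have hfin : Finite ((M ≃ₐ[F] M) →* ℂ_[p]ˣ) := finite_chr _ _
  choose H hH1 hH2 hH3 hH4 hH5 using fun ψ : (M ≃ₐ[F] M) →* ℂ_[p]ˣ => exists_fld M ψ
  have hco : ∀ ψ : (M ≃ₐ[F] M) →* ℂ_[p]ˣ, (orderOf ψ).Coprime p := fun ψ => by
    have h0 := hcop.coprime_dvd_left (hH5 ψ)
    rwa [hH4 ψ] at h0
  set r2 := InfinitePlace.nrComplexPlaces F with hr2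
  have hp1 : ∀ f : ℕ, 0 ≤ 1 / (((p : ℝ) ^ f) ^ r2 * ((p : ℝ) ^ f - 1)) := by
    intro f
    have h1 : (1 : ℝ) ≤ (p : ℝ) ^ f := one_le_pow₀ (by exact_mod_cast hp.one_lt.le)
    exact div_nonneg zero_le_one (mul_nonneg (by positivity) (by linarith))
  obtain ⟨n, c, rep, hc, hfr, hsum⟩ := exists_cls p hco
    (fun f => 1 / (((p : ℝ) ^ f) ^ r2 * ((p : ℝ) ^ f - 1))) hp1
  -- an automorphism which is the identity on `M` and not on the `p`-th roots of unity
  obtain ⟨g, r, hgM, hg1, hg2⟩ : ∃ (g : AlgebraicClosure F ≃ₐ[F] AlgebraicClosure F) (r : ℕ),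
      (∀ x ∈ M, g x = x) ∧ (∀ ξ : AlgebraicClosure F, ξ ^ p = 1 → g ξ = ξ ^ r) ∧
      ‖(1 : ℂ_[p]) - (r : ℂ_[p])‖ = 1 := by
    have hne : NeZero ((p : ℕ) : AlgebraicClosure F) := ⟨Nat.cast_ne_zero.2 hp.ne_zero⟩
    obtain ⟨ζ, hζ⟩ := HasEnoughRootsOfUnity.exists_primitiveRoot (AlgebraicClosure F) p
    by_contra hcon
    push Not at hcon
    have h1 : ∀ g : AlgebraicClosure F ≃ₐ[F] AlgebraicClosure F, (∀ x ∈ M, g x = x) → g ζ = ζ := by
      intro g hg
      obtain ⟨r, hr⟩ := exists_act (p := p) g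
      rcases norm_one_sub_nat (p := p) F r with h | h
      · exact absurd h (hcon g r hg hr)
      · rw [hr ζ hζ.pow_eq_one, h ζ hζ.pow_eq_one]
    have h2 : ζ ∈ M := by
      rw [← InfiniteGalois.fixedField_fixingSubgroup M, IntermediateField.mem_fixedField_iff]
      intro g hg
      exact h1 g ((IntermediateField.mem_fixingSubgroup_iff _ _).1 hg)
    exact hμ ⟨⟨ζ, h2⟩, hζ.of_map_of_injective (f := algebraMap M (AlgebraicClosure F))
      (algebraMap M (AlgebraicClosure F)).injective⟩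
  have hgψ : ∀ ψ : (M ≃ₐ[F] M) →* ℂ_[p]ˣ, chi M ψ g = 1 := fun ψ => chi_eq_one M ψ g hgM
  have hcl : PlaceClosed (TSet ιinf ιp (Set.univ : Set (F →+* ℂ))) :=
    Pool.Agent.Helper35.RD.tset_closed ιinf ιp _ fun _ _ _ => Iff.rfl
  have hTc : (TSet ιinf ιp (Set.univ : Set (F →+* ℂ))).ncard =
      Fintype.card (InfinitePlace F) + r2 := by
    rw [Pool.Agent.Helper35.RD.tset_ncard, Set.ncard_univ, Nat.card_eq_fintype_card,
      NumberField.Embeddings.card, ← InfinitePlace.card_add_two_mul_card_eq_rank,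
      InfinitePlace.card_eq_nrRealPlaces_add_nrComplexPlaces]
    omega
  have hrk : Units.rank F + 1 = Fintype.card (InfinitePlace F) := by
    have h1 : 0 < Fintype.card (InfinitePlace F) := Fintype.card_pos
    rw [Units.rank]
    omega
  have hpow : ∀ f : ℕ, ((p : ℝ) ^ f) ≠ 0 := fun f => pow_ne_zero _ (Nat.cast_ne_zero.2 hp.ne_zero)
  set d := Fintype.card (InfinitePlace F) with hd
  -- the pairs
  let B : Set (IntermediateField F (AlgebraicClosure F) × Chr F (AlgebraicClosure F) ℂ_[p]) :=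
    {x | x.1 ∈ A ∧ CutsOut x.2 x.1}
  have hsame : ∀ x ∈ ChN p F, ∀ y ∈ ChN p F, (∀ σ : F →+* ℂ_[p], DecT (x.2 * y.2⁻¹) σ) →
      SameP p x.1 y.1 := by
    intro x hx y hy h τ g hg
    have h1 : (x.2 * y.2⁻¹) g = 1 := h (τ.comp (algebraMap F (AlgebraicClosure F))) τ rfl g hg
    rw [MonoidHom.mul_apply, MonoidHom.inv_apply, mul_inv_eq_one] at h1
    rw [← hx.2 g, ← hy.2 g, h1]
  have hB : LocC p F B := by
    refine ⟨fun x hx => ⟨hA.subset hx.1, hx.2⟩, ?_, ?_⟩
    · obtain ⟨N, hN⟩ := hA.nonempty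
      obtain ⟨φ, hφ⟩ := exists_cut (p := p) N (hA.subset hN).1 (hA.subset hN).2
      exact ⟨(N, φ), hN, hφ⟩
    · intro x hx y hy h
      exact ⟨hA.same x.1 hx.1 y.1 hy.1 (hsame x ⟨hA.subset hx.1, hx.2⟩ y hy h), hy.2⟩
  have hE : LocE p F (fun x : IntermediateField F (AlgebraicClosure F) ×
      Chr F (AlgebraicClosure F) ℂ_[p] => e x.1) := by
    refine ⟨fun x => he.one_le x.1, fun x hx y hy h => ?_⟩
    exact he.same x.1 hx.1 y.1 hy.1 (hsame x hx y hy h)
  have hT : ∀ x ∈ B, ∀ (ψ : (M ≃ₐ[F] M) →* ℂ_[p]ˣ) (σ : F →+* ℂ_[p]),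
      DecT x.2 σ ∨ NonOm (chi M ψ) σ := by
    intro x hx ψ σ
    by_cases hno : NonOm (chi M ψ) σ
    · exact Or.inr hno
    · left
      unfold NonOm at hno
      push Not at hno
      obtain ⟨τ, hτ, hno⟩ := hno
      have h1 : ∀ g : AlgebraicClosure F ≃ₐ[F] AlgebraicClosure F,
          Pool.Agent.Helper76.LEO.InDec τ g → (∀ x ∈ M, g x = x) →
          ∀ ξ : AlgebraicClosure F, ξ ^ p = 1 → g ξ = ξ := by
        intro g hg hgM' ξ hξ
        obtain ⟨r, hr⟩ := exists_act (p := p) g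
        have h2 := hno g r hg hr
        rw [chi_eq_one M ψ g hgM', Units.val_one] at h2
        rcases norm_one_sub_nat (p := p) F r with h | h
        · exact absurd h h2
        · rw [hr ξ hξ, h ξ hξ]
      have h2 := hA.split x.1 hx.1 τ h1
      intro τ' hτ' g' hg'
      obtain ⟨h, hh⟩ := Pool.Agent.Helper59.SL.exists_gal_comp (K := F) τ τ' (hτ'.trans hτ.symm)
      have h3 : Pool.Agent.Helper76.LEO.InDec τ (h * g' * h⁻¹) := by
        intro y
        have h4 := hg' (h⁻¹ y)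
        rw [hh] at h4
        have h5 : h (h⁻¹ y) = y := AlgEquiv.apply_symm_apply h y
        have h6 : ‖τ (h (g' (h⁻¹ y)))‖ = ‖τ (h (h⁻¹ y))‖ := h4
        rw [h5] at h6
        exact h6
      have h4 : x.2 (h * g' * h⁻¹) = 1 := (hx.2 _).2 (h2 _ h3)
      rw [map_mul, map_mul, map_inv, mul_comm (x.2 h), mul_inv_cancel_right] at h4
      exact h4
  have key := w_denl p F (Or.inl hp2) ιinf ιp L ((M ≃ₐ[F] M) →* ℂ_[p]ˣ) n c (fun _ => Set.univ)
    H (fun _ => ⊥) (fun ψ => chi M ψ) (fun _ => 1) (fun _ => hcl) hH1 hH3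
    (fun ψ => hcop.coprime_dvd_left (hH5 ψ))
    (fun ψ => ⟨g, r, hg1, by rw [hgψ ψ, Units.val_one]; exact hg2⟩)
    (fun _ => cutsOut_one) (fun _ => ⟨0, by rw [IntermediateField.finrank_bot, pow_zero]⟩)
    (fun _ σ τ _ g' _ => by rw [MonoidHom.pow_apply, MonoidHom.one_apply, one_pow])
    (fun i j hij => ⟨rfl, (hc i j hij).imp fun r hr => by
      apply MonoidHom.ext
      intro g'
      rw [MonoidHom.pow_apply]
      show i _ = j _ ^ p ^ r
      conv_lhs => rw [hr]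
      rw [MonoidHom.pow_apply], rfl⟩)
    (fun t => 1 / (((p : ℝ) ^ fdeg p (rep t)) ^ r2 * ((p : ℝ) ^ fdeg p (rep t) - 1)))
    (fun t => hp1 _) (fun _ => d) (fun ψ => nUr_le F (H ψ))
    (fun ψ => by
      rw [hTc, hfr ψ]
      have hQ : ∀ (Q : ℝ), Q ≠ 0 → Q ^ d / Q ^ (d + r2) = 1 / Q ^ r2 := by
        intro Q hQ
        rw [pow_add]
        field_simp
      by_cases hψ : H ψ = ⊥
      · left
        refine ⟨hψ, ?_, ?_⟩
        · rw [hrk]; exact Nat.le_add_right _ _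
        have h1 : fdeg p ψ = 1 := by
          unfold fdeg
          have h2 : orderOf ψ = 1 := by
            rw [← hH4 ψ, hψ, IntermediateField.finrank_bot]
          rw [h2]
          exact orderOf_eq_one_iff.2 (Subsingleton.elim _ _)
        rw [h1, hrk, pow_one]
        apply le_of_eq
        rw [← div_div, hQ _ (Nat.cast_ne_zero.2 hp.ne_zero), div_div]
      · right; right
        refine ⟨hψ, fun j => ⟨g, r, hg1, by
          rw [hgψ ψ, Units.val_one, one_pow]; exact hg2⟩, ?_⟩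
        have h1 : orderOf (p : ZMod (finrank F (H ψ))) = fdeg p ψ := by
          unfold fdeg
          rw [hH4 ψ]
        rw [h1, hQ _ (hpow _), div_mul_div_comm, one_mul])
    B hB (fun x hx ψ σ _ => by rw [chr_one_mul]; exact hT x hx ψ σ)
    (fun x => e x.1) hE
  obtain ⟨k1, k2, k3⟩ := key
  -- from pairs to fields
  have htame : ∀ N : IntermediateField F (AlgebraicClosure F),
      Pool.Agent.Helper76.LEO.tame p F N = condP p F N := fun N =>
    Pool.Agent.Helper38.FW.tame_eq (p := p) (K := F) N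
  have hsub : ∀ (A' : Set (IntermediateField F (AlgebraicClosure F))) (X : ℕ), A' ⊆ CycExt p F →
      cntE (fun x : IntermediateField F (AlgebraicClosure F) × Chr F (AlgebraicClosure F) ℂ_[p] =>
        e x.1) {x | x.1 ∈ A' ∧ CutsOut x.2 x.1} X = count p e A' X * ((p - 1 : ℕ) : ℝ) := by
    intro A' X hA'
    unfold cntE count
    rw [← Nat.cast_mul, ← ncard_pairs (p := p) {N | N ∈ A' ∧ Pool.Agent.Helper76.LEO.tame p F N * e N ≤ X}
      fun N hN => hA' hN.1]
    congr 2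
    ext x
    simp only [Set.mem_ofPred_eq, htame]
    tauto
  have hpp : (0 : ℝ) < ((p - 1 : ℕ) : ℝ) := by
    rw [Nat.cast_pos]
    have := hp.one_lt
    omega
  have hChN : ChN p F = {x | x.1 ∈ CycExt p F ∧ CutsOut x.2 x.1} := rfl
  refine ⟨?_, ?_, ?_⟩
  · intro X
    refine ((k1 X).image Prod.fst).subset ?_
    rintro N ⟨hN, hX⟩
    obtain ⟨φ, hφ⟩ := exists_cut (p := p) N hN.1 hN.2
    refine ⟨(N, φ), ⟨⟨hN, hφ⟩, ?_⟩, rfl⟩
    rw [htame] at hX
    exact hX
  · intro η hη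
    filter_upwards [k2 η hη] with X hX
    have hbad : {x : IntermediateField F (AlgebraicClosure F) × Chr F (AlgebraicClosure F) ℂ_[p] |
        x.1 ∈ {N | N ∈ A ∧ ¬ GoodC ιinf ιp L M N} ∧ CutsOut x.2 x.1} ⊆
        {x | x ∈ B ∧ ∃ i, ¬ GoodV ιinf ιp L Set.univ (H i) (⊥ :
          IntermediateField F (AlgebraicClosure F)) (chi M i) 1 x} := by
      rintro x ⟨⟨hx1, hx2⟩, hx3⟩
      refine ⟨⟨hx1, hx3⟩, ?_⟩
      by_contra hcon
      push Not at hcon
      apply hx2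
      intro χ φ hχ hφ
      obtain ⟨ψ, rfl⟩ := exists_chi M χ hχ
      obtain ⟨i, -, hi, rfl⟩ := cut_pow x.1 (hA.subset hx1).1 hx3 hφ
      have h1 := hcon ψ i ⊥ 1 hi (comp_bot _ _ _) cutsOut_one
      rw [chr_one_mul, chr_mul_one] at h1
      exact h1
    have h1 := hsub {N | N ∈ A ∧ ¬ GoodC ιinf ιp L M N} X fun N hN => hA.subset hN.1
    have h2 := hsub A X hA.subset
    have h3 : cntE (fun x : IntermediateField F (AlgebraicClosure F) ×
        Chr F (AlgebraicClosure F) ℂ_[p] => e x.1) {x | x.1 ∈ {N | N ∈ A ∧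
          ¬ GoodC ιinf ιp L M N} ∧ CutsOut x.2 x.1} X ≤
        cntE (fun x => e x.1) {x | x ∈ B ∧ ∃ i, ¬ GoodV ιinf ιp L Set.univ (H i) (⊥ :
          IntermediateField F (AlgebraicClosure F)) (chi M i) 1 x} X := by
      unfold cntE
      refine Nat.cast_le.2 (Set.ncard_le_ncard ?_ ?_)
      · rintro x ⟨hx1, hx2⟩
        exact ⟨hbad hx1, hx2⟩
      · exact (k1 X).subset fun x hx => ⟨hB.sub hx.1.1, hx.2⟩
    have h4 : ∑ t, 1 / (((p : ℝ) ^ fdeg p (rep t)) ^ r2 * ((p : ℝ) ^ fdeg p (rep t) - 1)) ≤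
        theta p M := by
      refine hsum.trans (le_of_eq ?_)
      unfold theta
      refine finsum_congr fun ψ => ?_
      rw [div_div, mul_comm]
      rfl
    have h5 := h3.trans hX
    rw [h1] at h5
    have h6 : cntE (fun x : IntermediateField F (AlgebraicClosure F) ×
        Chr F (AlgebraicClosure F) ℂ_[p] => e x.1) B X = count p e A X * ((p - 1 : ℕ) : ℝ) := h2
    rw [h6, ← mul_assoc] at h5
    refine (le_of_mul_le_mul_right h5 hpp).trans ?_
    exact mul_le_mul_of_nonneg_right (by linarith) (Nat.cast_nonneg _)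
  · obtain ⟨δ, hδ, h⟩ := k3
    refine ⟨δ, hδ, ?_⟩
    filter_upwards [h] with X hX
    have h1 := hsub (CycExt p F) X subset_rfl
    have h2 := hsub A X hA.subset
    rw [hChN, h1] at hX
    have h6 : cntE (fun x : IntermediateField F (AlgebraicClosure F) ×
        Chr F (AlgebraicClosure F) ℂ_[p] => e x.1) B X = count p e A X * ((p - 1 : ℕ) : ℝ) := h2
    rw [h6, ← mul_assoc] at hX
    exact ⟨pos_of_mul_pos_left hX.1 hpp.le, le_of_mul_le_mul_right hX.2 hpp⟩

end Pool.Agent.Helper42.LEO
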